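import Mathlib
import Pool.Agent.Helper6.SW.Defs
import Pool.Agent.Helper10.P5.Mert

/-!
# S-1: the mass of the smooth weight on primes
-/

set_option autoImplicit false

namespace Pool.Agent.Helper79.SW

open Finset Pool.Agent.Helper6.SW

theorem tent_nonneg (V v : ℝ) : 0 ≤ tent V v := le_max_left _ _

theorem om_nonneg (V : ℝ) (k : ℕ) (X : ℝ) (n : ℕ) : 0 ≤ om V k X n := by
  unfold om
  have h1 : 0 ≤ Real.log (n : ℝ) := Real.log_natCast_nonneg n
  have h2 : 0 ≤ (n : ℝ) ^ (-(1 + 1 / Real.log X)) := Real.rpow_nonneg (Nat.cast_nonneg n) _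
  exact mul_nonneg (mul_nonneg (pow_nonneg h1 k) h2) (tent_nonneg _ _)

theorem stMass_of : StMass := by
  obtain ⟨C1, hC1, hlow⟩ := Pool.Agent.Helper10.P5.mertens_lower
  set V : ℝ := 2 * (C1 + 4) with hV
  have hVpos : 0 < V := by rw [hV]; linarith
  refine ⟨V, hVpos, fun k => ?_⟩
  refine ⟨(1 / 2) ^ k * Real.exp (-1) * (1 / 2), 2 ^ (k + 1) * Real.exp V,
    max 3 (Real.exp V), by positivity, by positivity, fun X hX => ?_⟩
  have hX3 : 3 ≤ X := (le_max_left _ _).trans hX
  have hXV : Real.exp V ≤ X := (le_max_right _ _).trans hX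
  have hXpos : 0 < X := by linarith
  have hlogX : V ≤ Real.log X := by
    rw [← Real.log_exp V]
    exact Real.log_le_log (Real.exp_pos _) hXV
  have hlogXpos : 0 < Real.log X := lt_of_lt_of_le hVpos hlogX
  constructor
  · -- lower bound
    set a : ℕ := ⌊Real.exp (-(V / 2)) * X⌋₊ with ha
    set b : ℕ := ⌊X⌋₊ with hb
    have hea : 1 ≤ Real.exp (-(V / 2)) * X := by
      have h1 : Real.exp (-(V / 2)) * Real.exp V ≤ Real.exp (-(V / 2)) * X :=
        mul_le_mul_of_nonneg_left hXV (Real.exp_pos _).le
      rw [← Real.exp_add] at h1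
      refine le_trans (Real.one_le_exp ?_) h1
      linarith
    have ha1 : 1 ≤ a := by
      rw [ha, Nat.one_le_floor_iff]
      exact hea
    have hexple : Real.exp (-(V / 2)) ≤ 1 := Real.exp_le_one_iff.2 (by linarith)
    have hab : a ≤ b := by
      rw [ha, hb]
      apply Nat.floor_le_floor
      nlinarith
    have hb1 : 1 ≤ b := ha1.trans hab
    have haR : (a : ℝ) ≤ Real.exp (-(V / 2)) * X := Nat.floor_le (by positivity)
    have hbR : X / 2 ≤ (b : ℝ) := by
      have := Nat.lt_floor_add_one X
      rw [← hb] at this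
      have hb1' : (1 : ℝ) ≤ (b : ℝ) := by exact_mod_cast hb1
      linarith
    have hloga : Real.log a ≤ Real.log X - V / 2 := by
      have h1 := Real.log_le_log (by exact_mod_cast ha1) haR
      rw [Real.log_mul (Real.exp_pos _).ne' hXpos.ne', Real.log_exp] at h1
      linarith
    have hlogb : Real.log X - Real.log 2 ≤ Real.log b := by
      have h1 := Real.log_le_log (by linarith) hbR
      rw [Real.log_div hXpos.ne' (by norm_num)] at h1
      exact h1
    have hl2 : Real.log 2 < 0.7 := by
      have := Real.log_two_lt_d9; linarith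
    have hl4 : Real.log 4 = 2 * Real.log 2 := by
      rw [show (4 : ℝ) = 2 ^ 2 by norm_num, Real.log_pow]; norm_num
    have hwin : 1 ≤ ∑ p ∈ (Pool.Agent.Helper10.P5.PL b).filter (fun p => a < p),
        Real.log p / p := by
      have h1 := hlow b hb1
      have h2 : ∑ p ∈ Pool.Agent.Helper10.P5.PL a, Real.log p / p ≤
          Real.log a + Real.log 4 := Pool.Agent.Helper10.mertens_upper a ha1
      have h3 : ∑ p ∈ Pool.Agent.Helper10.P5.PL b, Real.log p / p =
          ∑ p ∈ (Pool.Agent.Helper10.P5.PL b).filter (fun p => a < p), Real.log p / p +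
          ∑ p ∈ (Pool.Agent.Helper10.P5.PL b).filter (fun p => ¬ a < p), Real.log p / p :=
        (Finset.sum_filter_add_sum_filter_not _ _ _).symm
      have h4 : (Pool.Agent.Helper10.P5.PL b).filter (fun p => ¬ a < p) =
          Pool.Agent.Helper10.P5.PL a := by
        ext p
        rw [Finset.mem_filter, Pool.Agent.Helper10.P5.mem_PL, Pool.Agent.Helper10.P5.mem_PL]
        constructor
        · rintro ⟨⟨_, h5⟩, h6⟩
          exact ⟨by omega, h5⟩
        · rintro ⟨h5, h6⟩
          exact ⟨⟨by omega, h6⟩, by omega⟩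
      rw [h4] at h3
      have h5 : C1 + 4 = V / 2 := by rw [hV]; ring
      linarith
    have hsub : (Pool.Agent.Helper10.P5.PL b).filter (fun p => a < p) ⊆ PX V X := by
      intro p hp
      rw [Finset.mem_filter, Pool.Agent.Helper10.P5.mem_PL] at hp
      rw [PX, Finset.mem_filter, Finset.mem_Icc]
      refine ⟨⟨hp.1.2.one_lt.le, ?_⟩, hp.1.2⟩
      refine hp.1.1.trans ?_
      rw [hb, NX]
      apply Nat.floor_le_floor
      have : 1 ≤ Real.exp V := Real.one_le_exp hVpos.le
      nlinarith
    have hterm : ∀ p ∈ (Pool.Agent.Helper10.P5.PL b).filter (fun p => a < p),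
        ((1 / 2) ^ k * Real.exp (-1) * (1 / 2) * (Real.log X) ^ k) * (Real.log p / p) ≤
          Real.log p * om V k X p := by
      intro p hp
      rw [Finset.mem_filter, Pool.Agent.Helper10.P5.mem_PL] at hp
      obtain ⟨⟨hpb, hpp⟩, hap⟩ := hp
      have hp0 : (0 : ℝ) < p := by exact_mod_cast hpp.pos
      have hp1 : (1 : ℝ) ≤ p := by exact_mod_cast hpp.one_lt.le
      have hpX : (p : ℝ) ≤ X := by
        have h1 : (p : ℝ) ≤ b := by exact_mod_cast hpb
        exact h1.trans (Nat.floor_le hXpos.le)
      have hpa : Real.exp (-(V / 2)) * X < p := by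
        rw [ha, Nat.floor_lt (by positivity)] at hap
        exact hap
      have hlogp : Real.log p ≤ Real.log X := Real.log_le_log hp0 hpX
      have hlogp0 : 0 ≤ Real.log (p : ℝ) := Real.log_nonneg hp1
      have hlogp2 : Real.log X - V / 2 ≤ Real.log p := by
        have h1 := Real.log_le_log (by positivity) hpa.le
        rw [Real.log_mul (Real.exp_pos _).ne' hXpos.ne', Real.log_exp] at h1
        linarith
      have htent : 1 / 2 ≤ tent V (Real.log p - Real.log X) := by
        unfold tent
        refine le_trans ?_ (le_max_right _ _)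
        have h1 : |Real.log p - Real.log X| ≤ V / 2 := by
          rw [abs_le]; constructor <;> linarith
        have h2 : |Real.log p - Real.log X| / V ≤ 1 / 2 := by
          rw [div_le_iff₀ hVpos]; linarith
        linarith
      have hpow : (1 / 2) ^ k * (Real.log X) ^ k ≤ (Real.log p) ^ k := by
        rw [← mul_pow]
        exact pow_le_pow_left₀ (by positivity) (by linarith) k
      have hrp : Real.exp (-1) / p ≤ (p : ℝ) ^ (-(1 + 1 / Real.log X)) := by
        rw [Real.rpow_def_of_pos hp0]
        have h1 : Real.log p * -(1 + 1 / Real.log X) = - Real.log p + -(Real.log p / Real.log X) := by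
          ring
        rw [h1, Real.exp_add, Real.exp_neg (Real.log p), Real.exp_log hp0, div_eq_inv_mul]
        refine mul_le_mul_of_nonneg_left ?_ (by positivity)
        apply Real.exp_le_exp.2
        have h2 : Real.log p / Real.log X ≤ 1 := by
          rw [div_le_one hlogXpos]; exact hlogp
        linarith
      unfold om
      have hA : 0 ≤ (1 / 2 : ℝ) ^ k * (Real.log X) ^ k := by positivity
      have h3 : ((1 / 2) ^ k * (Real.log X) ^ k) * (Real.exp (-1) / p) * (1 / 2) ≤
          (Real.log p) ^ k * (p : ℝ) ^ (-(1 + 1 / Real.log X)) *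
            tent V (Real.log p - Real.log X) := by
        apply mul_le_mul _ htent (by norm_num)
        · positivity
        · exact mul_le_mul hpow hrp (by positivity) (by positivity)
      calc ((1 / 2) ^ k * Real.exp (-1) * (1 / 2) * (Real.log X) ^ k) * (Real.log p / p) =
          Real.log p * (((1 / 2) ^ k * (Real.log X) ^ k) * (Real.exp (-1) / p) * (1 / 2)) := by
            ring
        _ ≤ _ := mul_le_mul_of_nonneg_left h3 hlogp0
    have hpos : 0 ≤ (1 / 2 : ℝ) ^ k * Real.exp (-1) * (1 / 2) * (Real.log X) ^ k := by positivity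
    calc (1 / 2 : ℝ) ^ k * Real.exp (-1) * (1 / 2) * (Real.log X) ^ k ≤
        ((1 / 2 : ℝ) ^ k * Real.exp (-1) * (1 / 2) * (Real.log X) ^ k) *
          ∑ p ∈ (Pool.Agent.Helper10.P5.PL b).filter (fun p => a < p), Real.log p / p := by
          nlinarith
      _ = ∑ p ∈ (Pool.Agent.Helper10.P5.PL b).filter (fun p => a < p),
          ((1 / 2 : ℝ) ^ k * Real.exp (-1) * (1 / 2) * (Real.log X) ^ k) * (Real.log p / p) :=
          Finset.mul_sum _ _ _
      _ ≤ ∑ p ∈ (Pool.Agent.Helper10.P5.PL b).filter (fun p => a < p),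
          Real.log p * om V k X p := Finset.sum_le_sum hterm
      _ ≤ Mass V k X := by
          unfold Mass
          exact Finset.sum_le_sum_of_subset_of_nonneg hsub fun p _ _ =>
            mul_nonneg (Real.log_natCast_nonneg p) (om_nonneg V k X p)
  · -- upper bound
    intro p hp hne
    rw [PX, Finset.mem_filter, Finset.mem_Icc] at hp
    have hpp := hp.2
    have hp0 : (0 : ℝ) < p := by exact_mod_cast hpp.pos
    have hp1 : (1 : ℝ) ≤ p := by exact_mod_cast hpp.one_lt.le
    have hlogp0 : 0 ≤ Real.log (p : ℝ) := Real.log_nonneg hp1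
    have htent : tent V (Real.log p - Real.log X) ≠ 0 := by
      intro h
      apply hne
      unfold om
      rw [h, mul_zero]
    have habs : |Real.log p - Real.log X| < V := by
      by_contra hcon
      push Not at hcon
      apply htent
      unfold tent
      apply max_eq_left
      have : 1 ≤ |Real.log p - Real.log X| / V := by
        rw [le_div_iff₀ hVpos]; linarith
      linarith
    rw [abs_lt] at habs
    have hgt : Real.exp (-V) * X < p := by
      rw [← Real.log_lt_log_iff (by positivity) hp0, Real.log_mul (Real.exp_pos _).ne' hXpos.ne',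
        Real.log_exp]
      linarith
    refine ⟨hgt, ?_⟩
    have hlogp : Real.log p ≤ 2 * Real.log X := by linarith
    have htent1 : tent V (Real.log p - Real.log X) ≤ 1 := by
      unfold tent
      apply max_le (by norm_num)
      have : 0 ≤ |Real.log p - Real.log X| / V := by positivity
      linarith
    have hrp : (p : ℝ) ^ (-(1 + 1 / Real.log X)) ≤ Real.exp V / X := by
      have h1 : (p : ℝ) ^ (-(1 + 1 / Real.log X)) ≤ (p : ℝ) ^ (-1 : ℝ) := by
        apply Real.rpow_le_rpow_of_exponent_le hp1
        have : 0 ≤ 1 / Real.log X := by positivity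
        linarith
      refine h1.trans ?_
      rw [Real.rpow_neg_one, inv_le_comm₀ hp0 (by positivity), inv_div, div_eq_inv_mul,
        ← Real.exp_neg]
      exact hgt.le
    unfold om
    have hpow : (Real.log p) ^ k ≤ (2 * Real.log X) ^ k := pow_le_pow_left₀ hlogp0 hlogp k
    have hrp0 : 0 ≤ (p : ℝ) ^ (-(1 + 1 / Real.log X)) := Real.rpow_nonneg hp0.le _
    have h3 : (Real.log p) ^ k * (p : ℝ) ^ (-(1 + 1 / Real.log X)) *
        tent V (Real.log p - Real.log X) ≤ (2 * Real.log X) ^ k * (Real.exp V / X) * 1 := by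
      apply mul_le_mul _ htent1 (tent_nonneg _ _) (by positivity)
      exact mul_le_mul hpow hrp hrp0 (by positivity)
    calc Real.log p * ((Real.log p) ^ k * (p : ℝ) ^ (-(1 + 1 / Real.log X)) *
        tent V (Real.log p - Real.log X)) ≤
        (2 * Real.log X) * ((2 * Real.log X) ^ k * (Real.exp V / X) * 1) :=
          mul_le_mul hlogp h3 (mul_nonneg (mul_nonneg (pow_nonneg hlogp0 k) hrp0)
            (tent_nonneg _ _)) (by positivity)
      _ = 2 ^ (k + 1) * Real.exp V * (Real.log X) ^ (k + 1) / X := by
          rw [mul_pow]; ring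

end Pool.Agent.Helper79.SW
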